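import Mathlib
import Pool.Agent.H355R2.NimReg
import Pool.Agent.H355R2.NimExists
import Pool.Agent.H355R2.NimUnique

set_option autoImplicit false

namespace Pool.Agent.Results.MP_68925f_co.NimTable

open Pool.Agent.H355R2.Nim

/-- There is exactly one operation on the natural numbers satisfying the rules of nim
multiplication, and its multiplication table is not a 2-regular array. -/
theorem result : ∃ mul : ℕ → ℕ → ℕ, IsNimMul mul ∧ (∀ mul' : ℕ → ℕ → ℕ, IsNimMul mul' →
    mul' = mul) ∧ ¬ IsTwoRegularTable (fun m n => (mul m n : ℤ)) :=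
  ⟨nimMul, isNimMul_nimMul, fun _ h => unique h isNimMul_nimMul,
    not_regular_table isNimMul_nimMul⟩

end Pool.Agent.Results.MP_68925f_co.NimTable
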